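import Pool.Agent.Y267.MX.Defs

open MeasureTheory Set Filter Topology
open scoped ENNReal NNReal

namespace Pool.Agent.Y267.MX

lemma tt_ge (L r : ℝ) : Real.exp (-L) ≤ tt L r := le_max_left _ _

lemma tt_pos (L r : ℝ) : 0 < tt L r := lt_of_lt_of_le (Real.exp_pos _) (tt_ge L r)

lemma tt_le {L : ℝ} (hL : 0 ≤ L) (r : ℝ) : tt L r ≤ 1 := by
  unfold tt
  apply max_le _ (min_le_left _ _)
  rw [Real.exp_le_one_iff]; linarith

lemma tt_mono (L : ℝ) : Monotone (tt L) := by
  intro r s h
  unfold tt
  exact max_le_max le_rfl (min_le_min le_rfl h)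

lemma log_tt_ge (L r : ℝ) : -L ≤ Real.log (tt L r) := by
  rw [← Real.log_exp (-L)]
  exact Real.log_le_log (Real.exp_pos _) (tt_ge L r)

lemma log_tt_le {L : ℝ} (hL : 0 ≤ L) (r : ℝ) : Real.log (tt L r) ≤ 0 :=
  Real.log_nonpos (tt_pos L r).le (tt_le hL r)

/-- key monotonicity: `s^q / t` is antitone -/
lemma key_anti {q T t u : ℝ} (hq : 0 < q) (ht : 0 < t) (htu : t ≤ u)
    (hs : q + 1 ≤ T + Real.log t) : (T + Real.log u) ^ q / u ≤ (T + Real.log t) ^ q / t := by
  have hu : 0 < u := lt_of_lt_of_le ht htu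
  set s := T + Real.log t with hsdef
  set d := Real.log u - Real.log t with hd
  have hd0 : 0 ≤ d := sub_nonneg.2 (Real.log_le_log ht htu)
  have hs0 : 0 < s := by linarith
  have e : T + Real.log u = s * (1 + d / s) := by
    field_simp
    rw [hd, hsdef]; ring
  have h1 : (1 + d / s) ^ q ≤ u / t := by
    have h2 : 1 + d / s ≤ Real.exp (d / s) := by
      rw [add_comm]; exact Real.add_one_le_exp _
    calc (1 + d / s) ^ q ≤ (Real.exp (d / s)) ^ q :=
          Real.rpow_le_rpow (by positivity) h2 hq.le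
      _ = Real.exp (d / s * q) := by rw [← Real.exp_mul]
      _ ≤ Real.exp d := by
          apply Real.exp_le_exp.2
          rw [div_mul_eq_mul_div, div_le_iff₀ hs0]
          nlinarith
      _ = u / t := by rw [hd, Real.exp_sub, Real.exp_log hu, Real.exp_log ht]
  rw [e, Real.mul_rpow hs0.le (by positivity), div_le_div_iff₀ hu ht]
  have h3 : 0 < s ^ q := Real.rpow_pos_of_pos hs0 q
  calc s ^ q * (1 + d / s) ^ q * t ≤ s ^ q * (u / t) * t := by gcongr
    _ = s ^ q * u := by field_simp

lemma hh_of_tt {q L r s : ℝ} (h : tt L r = tt L s) : hh q L r = hh q L s := by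
  unfold hh ss; rw [h]

theorem profA : ProfStm := by
  intro q L hq hL
  have hL0 : 0 ≤ L := by linarith
  have hT : 1 ≤ q + 1 + L := by linarith
  have hT0 : 0 < q + 1 + L := by linarith
  have e1 := Real.exp_pos (-L)
  have e0 : Real.exp (-L) ≤ 1 := by
    rw [Real.exp_le_one_iff]; linarith
  have hTp : 0 < (q + 1 + L) ^ (-(q + 1)) := Real.rpow_pos_of_pos hT0 _
  have hss : ∀ r, q + 1 ≤ ss q L r ∧ ss q L r ≤ q + 1 + L := fun r => by
    unfold ss
    have := log_tt_ge L r
    have := log_tt_le hL0 r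
    constructor <;> linarith
  have hanti : ∀ r s, r ≤ s → hh q L s ≤ hh q L r := by
    intro r s hrs
    have ht := tt_pos L r
    have ht2 := tt_pos L s
    have hm := tt_mono L hrs
    unfold hh
    apply add_le_add
    · gcongr
    · rw [mul_div_assoc, mul_div_assoc]
      apply mul_le_mul_of_nonneg_left _ hTp.le
      exact key_anti hq ht hm (hss r).1
  have htt1 : ∀ r, 1 ≤ r → tt L r = 1 := fun r hr => by
    unfold tt
    rw [min_eq_left hr, max_eq_right e0]
  have hTT : (q + 1 + L) ^ (-(q + 1)) * (q + 1 + L) ^ q = (q + 1 + L)⁻¹ := by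
    rw [← Real.rpow_add hT0, show -(q + 1) + q = -1 by ring, Real.rpow_neg_one]
  have hone : ∀ r, 1 ≤ r → hh q L r = Real.exp (-L) + (q + 1 + L)⁻¹ := by
    intro r hr
    unfold hh ss
    rw [htt1 r hr, Real.log_one]
    simp only [add_zero, one_pow, div_one]
    rw [hTT]
  have hcore : ∀ r, r ≤ Real.exp (-L) → tt L r = Real.exp (-L) := fun r hr => by
    unfold tt
    exact max_eq_left ((min_le_right _ _).trans hr)
  have h00 : hh q L 0 = Real.exp L + (q + 1 + L) ^ (-(q + 1)) * (q + 1) ^ q * Real.exp L := by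
    unfold hh ss
    rw [hcore 0 e1.le, Real.log_exp, Real.exp_neg]
    have := Real.exp_pos L
    rw [show q + 1 + L + -L = q + 1 by ring]
    field_simp
  have hsmall : (q + 1 + L) ^ (-(q + 1)) * (q + 1) ^ q ≤ 1 := by
    have h1 : (q + 1) ^ q ≤ (q + 1 + L) ^ q := Real.rpow_le_rpow (by positivity) (by linarith) hq.le
    calc (q + 1 + L) ^ (-(q + 1)) * (q + 1) ^ q
        ≤ (q + 1 + L) ^ (-(q + 1)) * (q + 1 + L) ^ q := by gcongr
      _ = (q + 1 + L)⁻¹ := hTT
      _ ≤ 1 := inv_le_one_of_one_le₀ hT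
  refine ⟨fun r => ⟨tt_ge L r, tt_le hL0 r⟩, hss, hanti, ?_, hone, ?_, ?_, ⟨?_, ?_⟩, ?_, ?_⟩
  · intro r hr
    have ht := tt_pos L r
    have ht2 := tt_pos L (r / 2)
    have hm : tt L (r / 2) ≤ tt L r := tt_mono L (by linarith)
    have hm2 : tt L r ≤ 2 * tt L (r / 2) := by
      unfold tt
      apply max_le
      · have := le_max_left (Real.exp (-L)) (min 1 (r / 2)); linarith
      · have := le_max_right (Real.exp (-L)) (min 1 (r / 2))
        have h3 : min 1 r ≤ 2 * min 1 (r / 2) := by
          rcases le_total 1 (r / 2) with h | h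
          · rw [min_eq_left h]; linarith [min_le_left 1 r]
          · rw [min_eq_right h]; linarith [min_le_right 1 r]
        linarith
    unfold hh
    rw [mul_add]
    apply add_le_add
    · rw [← mul_div_assoc, div_le_div_iff₀ (by positivity) (by positivity)]
      have : (tt L r) ^ 2 ≤ 4 * (tt L (r / 2)) ^ 2 := by nlinarith
      nlinarith
    · have h4 : (ss q L (r / 2)) ^ q ≤ (ss q L r) ^ q := by
        apply Real.rpow_le_rpow (by linarith [(hss (r / 2)).1]) _ hq.le
        unfold ss
        have := Real.log_le_log ht2 hm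
        linarith
      have hs0 : 0 < (ss q L r) ^ q := Real.rpow_pos_of_pos (by linarith [(hss r).1]) _
      rw [← mul_div_assoc, div_le_div_iff₀ ht2 ht]
      have h5 : (q + 1 + L) ^ (-(q + 1)) * ss q L (r / 2) ^ q ≤
          (q + 1 + L) ^ (-(q + 1)) * ss q L r ^ q := by gcongr
      have h6 : 0 < (q + 1 + L) ^ (-(q + 1)) * ss q L r ^ q := by positivity
      nlinarith
  · intro r
    calc (q + 1 + L)⁻¹ ≤ Real.exp (-L) + (q + 1 + L)⁻¹ := by linarith
      _ = hh q L (max r 1) := (hone _ (le_max_right _ _)).symm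
      _ ≤ hh q L r := hanti _ _ (le_max_left _ _)
  · intro r hr
    exact hh_of_tt ((hcore r hr).trans (hcore 0 e1.le).symm)
  · rw [h00]
    have := Real.exp_pos L
    nlinarith
  · rw [h00]
    have := Real.exp_pos L
    have : 0 < (q + 1 + L) ^ (-(q + 1)) * (q + 1) ^ q * Real.exp L := by positivity
    linarith
  · intro r hr hr1
    have htr : tt L r = r := by
      unfold tt
      rw [min_eq_right hr1, max_eq_right hr]
    have hr0 : 0 < r := lt_of_lt_of_le e1 hr
    constructor
    · unfold hh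
      rw [htr]
      have : 0 < Real.exp (-L) / r ^ 2 := by positivity
      linarith
    · unfold hh
      rw [htr]
      have h1 : (ss q L r) ^ q ≤ (q + 1 + L) ^ q :=
        Real.rpow_le_rpow (by linarith [(hss r).1]) (hss r).2 hq.le
      have h2 : (q + 1 + L) ^ (-(q + 1)) * ss q L r ^ q ≤ (q + 1 + L)⁻¹ := by
        rw [← hTT]; gcongr
      have h3 : (q + 1 + L) ^ (-(q + 1)) * ss q L r ^ q / r ≤ (q + 1 + L)⁻¹ / r := by gcongr
      linarith
  · have hm : Measurable (tt L) := measurable_const.max (measurable_const.min measurable_id)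
    unfold hh ss
    exact (measurable_const.div (hm.pow_const 2)).add
      ((measurable_const.mul ((measurable_const.add (Real.measurable_log.comp hm)).pow_const q)).div hm)

end Pool.Agent.Y267.MX
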