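import Pool.Agent.Y267.MX.F

open MeasureTheory Set Filter Topology
open scoped ENNReal NNReal

namespace Pool.Agent.Y267.MX

lemma le_rad {a b y : ℝ} (hy : y ∈ Icc a b) : |y| ≤ rad a b := by
  unfold rad
  rw [abs_le]
  constructor
  · have : -|a| ≤ a := neg_abs_le a
    have := le_max_left |a| |b|
    linarith [hy.1]
  · have : b ≤ |b| := le_abs_self b
    have := le_max_right |a| |b|
    linarith [hy.2]

lemma rad_pos {a b : ℝ} (hab : a < b) : 0 < rad a b := by
  unfold rad
  rcases lt_or_ge a 0 with h | h
  · exact lt_of_lt_of_le (abs_pos.mpr h.ne) (le_max_left _ _)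
  · exact lt_of_lt_of_le (abs_pos.mpr (by linarith : (0:ℝ) < b).ne') (le_max_right _ _)

lemma rho_far {a b : ℝ} (hab : a < b) (hc : b - a < rad a b / 2) : rad a b / 2 ≤ rho a b := by
  unfold rho rad at *
  rcases le_total |a| |b| with h | h
  · rw [max_eq_right h] at *
    rcases le_or_gt 0 b with hb | hb
    · rw [abs_of_nonneg hb] at *
      have : b / 2 ≤ a := by linarith
      exact this.trans ((le_max_left _ _).trans (le_max_left _ _))
    · rw [abs_of_neg hb] at *
      have : -b / 2 ≤ -b := by linarith
      exact this.trans ((le_max_right _ _).trans (le_max_left _ _))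
  · rw [max_eq_left h] at *
    rcases le_or_gt 0 a with ha | ha
    · rw [abs_of_nonneg ha] at *
      have : a / 2 ≤ a := by linarith
      exact this.trans ((le_max_left _ _).trans (le_max_left _ _))
    · rw [abs_of_neg ha] at *
      have : -a / 2 ≤ -b := by linarith
      exact this.trans ((le_max_right _ _).trans (le_max_left _ _))

lemma rho_nonneg (a b : ℝ) : 0 ≤ rho a b := le_max_right _ _

theorem ainfC (hA : ProfStm) (hB : IntStm) : AinfStm := by
  intro q L a b hq hL hab
  obtain ⟨htt, hss, hanti, hdbl, hone, hTinv, hcore, -, -, -⟩ := hA q L hq hL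
  obtain ⟨b1, b2, b3⟩ := hB
  have hT : 1 ≤ q + 1 + L := by linarith
  have hT0 : 0 < q + 1 + L := by linarith
  have e1 := Real.exp_pos (-L)
  have hr := rad_pos hab
  set r := rad a b with hrdef
  set S := ∫⁻ x in Icc a b, sg q L x with hS
  have hS0 : 0 < S := int_sg_pos hA hq hL hab
  have hSt : S < ⊤ := int_sg_lt hA hq hL
  have hs1 : 1 ≤ ss q L r := one_le_ss hA hq hL r
  have hle40 : ∀ K : ℝ≥0∞, K ≤ ENNReal.ofReal (40 * ss q L r) → ∫⁻ x in Icc a b, MB q L a b (rho a b) x
      ≤ K * S → ∫⁻ x in Icc a b, MB q L a b (rho a b) x ≤ ENNReal.ofReal (40 * ss q L r) * S :=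
    fun K h1 h2 => h2.trans (by gcongr)
  by_cases hc : b - a < r / 2
  · -- case A
    have hfar := rho_far hab hc
    apply hle40 4 (by
      rw [show (4 : ℝ≥0∞) = ENNReal.ofReal 4 by norm_num]
      apply ENNReal.ofReal_le_ofReal; linarith)
    rw [hS, ← lintegral_const_mul _ (sg_meas hA hq hL)]
    apply setLIntegral_mono' measurableSet_Icc
    intro x hx
    unfold MB
    refine (min_le_right _ _).trans ?_
    unfold sg
    rw [show (4 : ℝ≥0∞) = ENNReal.ofReal 4 by norm_num, ← ENNReal.ofReal_mul (by norm_num)]
    apply ENNReal.ofReal_le_ofReal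
    rw [abs_of_nonneg (rho_nonneg a b)]
    calc hh q L (rho a b) ≤ hh q L (r / 2) := hanti _ _ hfar
      _ ≤ 4 * hh q L r := hdbl _ hr.le
      _ ≤ 4 * hh q L |x| := by
        have := hanti _ _ (le_rad hx)
        linarith
  · push Not at hc
    by_cases hr1 : r < Real.exp (-L)
    · -- core
      apply hle40 1 (by
        rw [show (1 : ℝ≥0∞) = ENNReal.ofReal 1 by norm_num]
        apply ENNReal.ofReal_le_ofReal; linarith)
      rw [one_mul, hS]
      apply setLIntegral_mono' measurableSet_Icc
      intro x hx
      unfold MB
      refine (min_le_right _ _).trans (le_of_eq ?_)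
      unfold sg
      have h1 : |x| ≤ Real.exp (-L) := (le_rad hx).trans hr1.le
      have h2 : rho a b ≤ Real.exp (-L) := (rho_le hx).trans h1
      rw [abs_of_nonneg (rho_nonneg a b), hcore _ h1, hcore _ h2]
    · push Not at hr1
      set M := mass q L a b with hM
      have hMS : M ≤ S := lintegral_mono_set inter_subset_left
      have hM8 : M ≤ 8 := b2 q L a b hq hL
      have hMt : M ≠ ⊤ := ne_top_of_le_ne_top hSt.ne hMS
      have hlog0 : 0 ≤ L + Real.log r := by
        have : -L ≤ Real.log r := by
          rw [← Real.log_exp (-L)]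
          exact Real.log_le_log e1 hr1
        linarith
      have hI : ∫⁻ x in Icc a b, MB q L a b (rho a b) x ≤
          4 * S + 2 * M * ENNReal.ofReal (2 * (L + Real.log r)) := by
        have hm : Measurable fun x : ℝ => (Ici (Real.exp (-L))).indicator
            (fun t => ENNReal.ofReal (1 / t)) |x| := by
          refine Measurable.comp (g := (Ici (Real.exp (-L))).indicator
            (fun t => ENNReal.ofReal (1 / t))) ?_ measurable_norm
          exact ((measurable_const.div measurable_id).ennreal_ofReal).indicator measurableSet_Ici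
        calc ∫⁻ x in Icc a b, MB q L a b (rho a b) x
            ≤ ∫⁻ x in Icc a b, (4 * sg q L x + 2 * M * (Ici (Real.exp (-L))).indicator
                (fun t => ENNReal.ofReal (1 / t)) |x|) := by
              apply lintegral_mono
              intro x
              unfold MB
              refine (min_le_left _ _).trans ?_
              apply add_le_add le_rfl
              by_cases h : |x| ∈ Ici (Real.exp (-L))
              · rw [indicator_of_mem h, indicator_of_mem h]
              · rw [indicator_of_notMem h]; exact zero_le
          _ = 4 * S + 2 * M * ∫⁻ x in Icc a b, (Ici (Real.exp (-L))).indicator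
                (fun t => ENNReal.ofReal (1 / t)) |x| := by
              rw [lintegral_add_left ((sg_meas hA hq hL).const_mul 4),
                lintegral_const_mul _ (sg_meas hA hq hL), lintegral_const_mul _ hm]
          _ ≤ 4 * S + 2 * M * ∫⁻ x in Icc (-r) r, (Ici (Real.exp (-L))).indicator
                (fun t => ENNReal.ofReal (1 / t)) |x| := by
              refine add_le_add le_rfl (mul_le_mul' le_rfl
                (lintegral_mono_set (fun y hy => ?_)))
              exact abs_le.1 (le_rad hy)
          _ ≤ 4 * S + 2 * M * ENNReal.ofReal (2 * (L + Real.log r)) := by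
              gcongr
              exact b3 L r hL hr1
      refine hI.trans ?_
      -- pass to real numbers
      have hSr : S = ENNReal.ofReal S.toReal := (ENNReal.ofReal_toReal hSt.ne).symm
      have hMr : M = ENNReal.ofReal M.toReal := (ENNReal.ofReal_toReal hMt).symm
      set sr := S.toReal with hsr
      set mr := M.toReal with hmr
      have hsr0 : 0 < sr := ENNReal.toReal_pos hS0.ne' hSt.ne
      have hmr0 : 0 ≤ mr := ENNReal.toReal_nonneg
      have hmrs : mr ≤ sr := ENNReal.toReal_mono hSt.ne hMS
      have hmr8 : mr ≤ 8 := by
        have := ENNReal.toReal_mono (by norm_num : (8 : ℝ≥0∞) ≠ ⊤) hM8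
        simpa using this
      rw [hSr, hMr, show (4 : ℝ≥0∞) = ENNReal.ofReal 4 by norm_num,
        show (2 : ℝ≥0∞) = ENNReal.ofReal 2 by norm_num, ← ENNReal.ofReal_mul (by norm_num),
        ← ENNReal.ofReal_mul (by norm_num), ← ENNReal.ofReal_mul (by positivity),
        ← ENNReal.ofReal_add (by positivity) (by positivity), ← ENNReal.ofReal_mul (by positivity)]
      apply ENNReal.ofReal_le_ofReal
      by_cases hr2 : r ≤ 1
      · have htr : tt L r = r := by
          unfold tt
          rw [min_eq_right hr2, max_eq_right hr1]
        have hsr2 : ss q L r = q + 1 + L + Real.log r := by unfold ss; rw [htr]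
        rw [hsr2]
        have h3 : mr * (L + Real.log r) ≤ sr * (L + Real.log r) := by gcongr
        nlinarith [mul_nonneg hsr0.le hlog0, mul_pos hsr0 hq]
      · push Not at hr2
        have htr : tt L r = 1 := by
          unfold tt
          rw [min_eq_left hr2.le, max_eq_right]
          rw [Real.exp_le_one_iff]; linarith
        have hsr2 : ss q L r = q + 1 + L := by
          unfold ss; rw [htr, Real.log_one, add_zero]
        rw [hsr2]
        -- r ≤ 2 T S
        have hrS : r ≤ 2 * (q + 1 + L) * sr := by
          have h1 : ENNReal.ofReal ((q + 1 + L)⁻¹ * (b - a)) ≤ S := by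
            calc ENNReal.ofReal ((q + 1 + L)⁻¹ * (b - a))
                = ∫⁻ _ in Icc a b, ENNReal.ofReal ((q + 1 + L)⁻¹) := by
                  rw [setLIntegral_const, Real.volume_Icc, ← ENNReal.ofReal_mul (by positivity)]
              _ ≤ S := by
                  apply lintegral_mono
                  intro x
                  exact ENNReal.ofReal_le_ofReal (hTinv _)
          rw [hSr] at h1
          have h2 := (ENNReal.ofReal_le_ofReal_iff hsr0.le).1 h1
          have h3 : (q + 1 + L) * ((q + 1 + L)⁻¹ * (b - a)) = b - a := by
            rw [← mul_assoc, mul_inv_cancel₀ hT0.ne', one_mul]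
          have h4 : b - a ≤ (q + 1 + L) * sr := by
            rw [← h3]; gcongr
          linarith
        have hlogr : Real.log r ≤ 2 * Real.sqrt r := by
          have h1 : Real.log r = 2 * Real.log (Real.sqrt r) := by
            rw [Real.log_sqrt hr.le]; ring
          have h2 := Real.log_le_sub_one_of_pos (Real.sqrt_pos.2 hr)
          linarith
        have hm2 : mr ≤ Real.sqrt (8 * sr) := by
          apply Real.le_sqrt_of_sq_le
          nlinarith
        have hr3 : Real.sqrt r ≤ Real.sqrt (2 * (q + 1 + L) * sr) := Real.sqrt_le_sqrt hrS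
        have hkey : mr * Real.log r ≤ 8 * (q + 1 + L) * sr := by
          have h1 : 0 ≤ Real.log r := Real.log_nonneg hr2.le
          calc mr * Real.log r ≤ Real.sqrt (8 * sr) * (2 * Real.sqrt (2 * (q + 1 + L) * sr)) := by
                gcongr
                exact hlogr.trans (by linarith)
            _ = 2 * Real.sqrt ((4 * sr) ^ 2 * (q + 1 + L)) := by
                rw [mul_left_comm, ← Real.sqrt_mul (by positivity)]
                congr 2; ring
            _ = 2 * (4 * sr * Real.sqrt (q + 1 + L)) := by
                rw [Real.sqrt_mul (by positivity), Real.sqrt_sq (by positivity)]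
            _ ≤ 8 * (q + 1 + L) * sr := by
                have h2 : Real.sqrt (q + 1 + L) ≤ q + 1 + L := by
                  rw [Real.sqrt_le_left (by linarith)]
                  nlinarith
                nlinarith
        have h5 : mr * L ≤ sr * L := by gcongr
        nlinarith [mul_pos hsr0 hq]

end Pool.Agent.Y267.MX
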