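import Pool.Agent.Y267.MX.Defs

open MeasureTheory Set Filter Topology
open scoped ENNReal NNReal

namespace Pool.Agent.Y267.MX

variable {m : ℕ}

lemma int_ball (c : Fin (m + 1) → ℝ) {r : ℝ} (hr : 0 < r) {f : ℝ → ℝ≥0∞} (hf : Measurable f) :
    ∫⁻ x in Metric.closedBall c r, f (x 0) =
      ENNReal.ofReal ((2 * r) ^ m) * ∫⁻ y in Icc (c 0 - r) (c 0 + r), f y := by
  have hmp := volume_preserving_piFinSuccAbove (fun _ : Fin (m + 1) => ℝ) 0
  set e := MeasurableEquiv.piFinSuccAbove (fun _ : Fin (m + 1) => ℝ) 0 with he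
  set c' : Fin m → ℝ := fun i => c i.succ with hc'
  have hpre : Metric.closedBall c r = e ⁻¹' (Icc (c 0 - r) (c 0 + r) ×ˢ Metric.closedBall c' r) := by
    ext x
    rw [mem_preimage, mem_prod, Metric.mem_closedBall, Metric.mem_closedBall, dist_pi_le_iff hr.le,
      dist_pi_le_iff hr.le, Fin.forall_fin_succ]
    have e1 : (e x).1 = x 0 := rfl
    have e2 : ∀ i : Fin m, (e x).2 i = x i.succ := fun i => by
      simp [he, MeasurableEquiv.piFinSuccAbove, Fin.tail]
    rw [e1, ← Real.closedBall_eq_Icc, Metric.mem_closedBall]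
    simp only [e2, hc']
  have hfun : (fun x : Fin (m + 1) → ℝ => f (x 0)) = (fun z : ℝ × (Fin m → ℝ) => f z.1) ∘ e := rfl
  rw [hfun, hpre]
  have := hmp.setLIntegral_comp_preimage_emb e.measurableEmbedding
    (fun z : ℝ × (Fin m → ℝ) => f z.1) (Icc (c 0 - r) (c 0 + r) ×ˢ Metric.closedBall c' r)
  rw [show (∫⁻ x in e ⁻¹' (Icc (c 0 - r) (c 0 + r) ×ˢ Metric.closedBall c' r),
      ((fun z : ℝ × (Fin m → ℝ) => f z.1) ∘ e) x) = _ from this]
  rw [Measure.volume_eq_prod, ← Measure.prod_restrict, lintegral_prod _ (by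
    exact (hf.comp measurable_fst).aemeasurable)]
  simp only [lintegral_const, Measure.restrict_apply MeasurableSet.univ, univ_inter]
  rw [lintegral_mul_const _ hf, mul_comm, Real.volume_pi_closedBall _ hr.le, Fintype.card_fin]

theorem transE : TransStm := by
  intro m c r hr
  have hv : ∀ (c : Fin (m + 1) → ℝ) {r : ℝ}, 0 < r → volume (Metric.closedBall c r) =
      ENNReal.ofReal ((2 * r) ^ m) * ENNReal.ofReal (2 * r) := fun c r hr => by
    rw [Real.volume_pi_closedBall _ hr.le, Fintype.card_fin, pow_succ,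
      ENNReal.ofReal_mul (by positivity)]
  have havg : ∀ (c : Fin (m + 1) → ℝ) {r : ℝ}, 0 < r → ∀ f : ℝ → ℝ≥0∞, Measurable f →
      avg (fun x : Fin (m + 1) → ℝ => f (x 0)) (Metric.closedBall c r) =
      avg f (Icc (c 0 - r) (c 0 + r)) := by
    intro c r hr f hf
    unfold avg
    rw [int_ball c hr hf, hv c hr, Real.volume_Icc, show c 0 + r - (c 0 - r) = 2 * r by ring]
    have hV : ENNReal.ofReal ((2 * r) ^ m) ≠ 0 := by
      rw [ne_eq, ENNReal.ofReal_eq_zero, not_le]; positivity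
    have hV' : ENNReal.ofReal ((2 * r) ^ m) ≠ ⊤ := ENNReal.ofReal_ne_top
    rw [ENNReal.mul_inv (Or.inl hV) (Or.inl hV')]
    calc _ = ((ENNReal.ofReal ((2 * r) ^ m))⁻¹ * ENNReal.ofReal ((2 * r) ^ m)) *
          ((ENNReal.ofReal (2 * r))⁻¹ * ∫⁻ y in Icc (c 0 - r) (c 0 + r), f y) := by ring
      _ = _ := by rw [ENNReal.inv_mul_cancel hV hV', one_mul]
  refine ⟨fun f hf => ⟨havg c hr f hf, int_ball c hr hf⟩, ?_⟩
  intro f hf x
  unfold maxN
  refine iSup_le fun Q => iSup_le fun hQ => iSup_le fun hx => ?_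
  obtain ⟨c', r', hr', rfl⟩ := hQ
  have hx0 : x 0 ∈ Icc (c' 0 - r') (c' 0 + r') := by
    rw [← Real.closedBall_eq_Icc, Metric.mem_closedBall]
    rw [Metric.mem_closedBall, dist_pi_le_iff hr'.le] at hx
    exact hx 0
  have h1 : avg ((Metric.closedBall c r).indicator (fun y : Fin (m + 1) → ℝ => f (y 0)))
      (Metric.closedBall c' r') ≤
      avg (fun y : Fin (m + 1) → ℝ => (Icc (c 0 - r) (c 0 + r)).indicator f (y 0))
        (Metric.closedBall c' r') := by
    unfold avg
    gcongr with y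
    show _ ≤ (Icc (c 0 - r) (c 0 + r)).indicator f (y 0)
    by_cases hy : y ∈ Metric.closedBall c r
    · have hy0 : y 0 ∈ Icc (c 0 - r) (c 0 + r) := by
        rw [← Real.closedBall_eq_Icc, Metric.mem_closedBall]
        rw [Metric.mem_closedBall, dist_pi_le_iff hr.le] at hy
        exact hy 0
      rw [indicator_of_mem hy, indicator_of_mem hy0]
    · rw [indicator_of_notMem hy]; exact zero_le
  refine h1.trans ?_
  rw [havg c' hr' _ (hf.indicator measurableSet_Icc)]
  unfold maxOne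
  exact le_iSup_of_le (c' 0 - r') (le_iSup_of_le (c' 0 + r') (le_iSup_of_le (by linarith)
    (le_iSup_of_le hx0 le_rfl)))

end Pool.Agent.Y267.MX
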