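import Pool.Agent.Y267.MX.Main

open MeasureTheory Set Filter Topology
open scoped ENNReal NNReal

namespace Pool.Agent.Y267.MX

lemma avg_le_of_forall {f : ℝ → ℝ≥0∞} {a b : ℝ} {c : ℝ≥0∞} (hab : a < b)
    (h : ∀ y ∈ Icc a b, f y ≤ c) : avg f (Icc a b) ≤ c := by
  unfold avg
  have hv : volume (Icc a b) ≠ 0 := by rw [Real.volume_Icc]; simp [hab]
  have hv' : volume (Icc a b) ≠ ⊤ := by rw [Real.volume_Icc]; exact ENNReal.ofReal_ne_top
  calc (volume (Icc a b))⁻¹ * ∫⁻ y in Icc a b, f y
      ≤ (volume (Icc a b))⁻¹ * ∫⁻ _ in Icc a b, c := by
        gcongr _ * ?_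
        exact setLIntegral_mono' measurableSet_Icc h
    _ = c := by
        rw [setLIntegral_const, mul_comm c, ← mul_assoc, ENNReal.inv_mul_cancel hv hv', one_mul]

lemma rho_le {a b y : ℝ} (hy : y ∈ Icc a b) : rho a b ≤ |y| := by
  unfold rho
  apply max_le _ (abs_nonneg y)
  apply max_le
  · exact hy.1.trans (le_abs_self y)
  · have := neg_abs_le y
    linarith [hy.2]

theorem maxF (hA : ProfStm) : MaxStm := by
  intro q L a b x hq hL hab
  obtain ⟨-, -, hanti, hdbl, hone, -, hcore, -, -, -⟩ := hA q L hq hL
  unfold maxOne
  refine iSup_le fun c => iSup_le fun d => iSup_le fun hcd => iSup_le fun hx => ?_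
  unfold MB
  have hsganti : ∀ s t : ℝ, |s| ≤ |t| → sg q L t ≤ sg q L s := fun s t h =>
    ENNReal.ofReal_le_ofReal (hanti _ _ h)
  apply le_min
  · by_cases hxc : |x| < Real.exp (-L)
    · have hxc' : |x| ∉ Ici (Real.exp (-L)) := not_le.2 hxc
      rw [indicator_of_notMem hxc', add_zero]
      have h0 : sg q L 0 = sg q L x := by
        unfold sg
        rw [abs_zero, hcore _ hxc.le]
      have h1 : avg ((Icc a b).indicator (sg q L)) (Icc c d) ≤ sg q L x := by
        apply avg_le_of_forall hcd
        intro y _
        rw [← h0]
        refine (indicator_le_self _ _ _).trans (hsganti 0 y ?_)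
        rw [abs_zero]; exact abs_nonneg y
      refine h1.trans ?_
      calc sg q L x = 1 * sg q L x := (one_mul _).symm
        _ ≤ 4 * sg q L x := by gcongr; norm_num
    · have hx1 : Real.exp (-L) ≤ |x| := not_lt.1 hxc
      have hx0 : 0 < |x| := lt_of_lt_of_le (Real.exp_pos _) hx1
      rw [indicator_of_mem (show |x| ∈ Ici (Real.exp (-L)) from hx1)]
      by_cases hfar : ∀ y ∈ Icc c d, |x| / 2 ≤ |y|
      · have h1 : avg ((Icc a b).indicator (sg q L)) (Icc c d) ≤ 4 * sg q L x := by
          apply avg_le_of_forall hcd
          intro y hy
          refine (indicator_le_self _ _ _).trans ?_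
          unfold sg
          rw [show (4 : ℝ≥0∞) = ENNReal.ofReal 4 by norm_num, ← ENNReal.ofReal_mul (by norm_num)]
          apply ENNReal.ofReal_le_ofReal
          exact (hanti _ _ (hfar y hy)).trans (hdbl _ (abs_nonneg x))
        exact h1.trans le_self_add
      · push Not at hfar
        obtain ⟨y, hy, hyx⟩ := hfar
        have hlen : |x| / 2 ≤ d - c := by
          have h1 : |x| - |y| ≤ |x - y| := abs_sub_abs_le_abs_sub x y
          have h2 : |x - y| ≤ d - c := by
            rw [abs_le]; constructor <;> linarith [hx.1, hx.2, hy.1, hy.2]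
          linarith
        have hpt : ∀ y, (Icc a b).indicator (sg q L) y ≤
            (Icc a b ∩ Icc (-1) 1).indicator (sg q L) y + ENNReal.ofReal (hh q L 1) := by
          intro y
          by_cases h : y ∈ Icc a b
          · rw [indicator_of_mem h]
            by_cases h1 : y ∈ Icc (-1 : ℝ) 1
            · rw [indicator_of_mem (show y ∈ Icc a b ∩ Icc (-1) 1 from ⟨h, h1⟩)]
              exact le_self_add
            · refine le_trans ?_ le_add_self
              unfold sg
              apply ENNReal.ofReal_le_ofReal
              apply hanti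
              by_contra hh
              push Not at hh
              exact h1 ⟨(abs_lt.mp hh).1.le, (abs_lt.mp hh).2.le⟩
          · rw [indicator_of_notMem h]; exact zero_le
        have hone' : hh q L 1 ≤ hh q L |x| := by
          calc hh q L 1 = hh q L (max 1 |x|) := by
                rw [hone 1 le_rfl, hone _ (le_max_left _ _)]
            _ ≤ hh q L |x| := hanti _ _ (le_max_right _ _)
        have hm : Measurable (sg q L) := sg_meas hA hq hL
        unfold avg
        have hv : volume (Icc c d) ≠ 0 := by rw [Real.volume_Icc]; simp [hcd]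
        have hv' : volume (Icc c d) ≠ ⊤ := by rw [Real.volume_Icc]; exact ENNReal.ofReal_ne_top
        calc (volume (Icc c d))⁻¹ * ∫⁻ y in Icc c d, (Icc a b).indicator (sg q L) y
            ≤ (volume (Icc c d))⁻¹ * ∫⁻ y in Icc c d,
                ((Icc a b ∩ Icc (-1) 1).indicator (sg q L) y + ENNReal.ofReal (hh q L 1)) := by
              gcongr with y
              exact hpt y
          _ = (volume (Icc c d))⁻¹ * (∫⁻ y in Icc c d, (Icc a b ∩ Icc (-1) 1).indicator (sg q L) y)
                + ENNReal.ofReal (hh q L 1) := by
              rw [lintegral_add_left (hm.indicator (measurableSet_Icc.inter measurableSet_Icc)),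
                setLIntegral_const, mul_add, mul_comm (ENNReal.ofReal _) (volume _), ← mul_assoc,
                ENNReal.inv_mul_cancel hv hv', one_mul]
          _ ≤ ENNReal.ofReal (2 * (1 / |x|)) * mass q L a b + sg q L x := by
              apply add_le_add
              · apply mul_le_mul'
                · rw [Real.volume_Icc, ← ENNReal.ofReal_inv_of_pos (by linarith)]
                  apply ENNReal.ofReal_le_ofReal
                  rw [inv_eq_one_div, mul_one_div, div_le_div_iff₀ (by linarith) hx0]
                  linarith
                · refine (setLIntegral_le_lintegral _ _).trans (le_of_eq ?_)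
                  rw [lintegral_indicator (measurableSet_Icc.inter measurableSet_Icc)]
                  rfl
              · unfold sg
                exact ENNReal.ofReal_le_ofReal hone'
          _ ≤ 4 * sg q L x + 2 * mass q L a b * ENNReal.ofReal (1 / |x|) := by
              rw [add_comm]
              apply add_le_add
              · calc sg q L x = 1 * sg q L x := (one_mul _).symm
                  _ ≤ 4 * sg q L x := by gcongr; norm_num
              · rw [ENNReal.ofReal_mul (by norm_num), show ENNReal.ofReal 2 = 2 by norm_num]
                apply le_of_eq; ring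
  · apply avg_le_of_forall hcd
    intro y _
    by_cases h : y ∈ Icc a b
    · rw [indicator_of_mem h]
      apply hsganti
      have h0 : 0 ≤ rho a b := le_max_right _ _
      rw [abs_of_nonneg h0]
      exact rho_le h
    · rw [indicator_of_notMem h]; exact zero_le

end Pool.Agent.Y267.MX
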