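import Mathlib

/-! Definitions for MP_2c43e6_an (stronger form): all dimensions, all exponents `1 < p < ∞`.

Parameters: `q = 1/(p-1) > 0`, `L ≥ 1`, `T = q + 1 + L`.  In one variable the dual weight is
`σ(x) = h(|x|)`, `h(r) = e^{-L}/t² + T^{-(q+1)} (q+1+L+log t)^q / t`, `t = max(e^{-L}, min(1, r))`,
and `w = σ^{-1/q}`.  In `ℝ^{m+1}` the weights depend on the coordinate `x 0` only. -/

open MeasureTheory Set Filter Topology
open scoped ENNReal NNReal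

namespace Pool.Agent.Y267.MX

/-- `t = max(e^{-L}, min(1, r))` -/
noncomputable def tt (L r : ℝ) : ℝ := max (Real.exp (-L)) (min 1 r)

/-- `s(r) = q + 1 + L + log t` -/
noncomputable def ss (q L r : ℝ) : ℝ := q + 1 + L + Real.log (tt L r)

/-- the profile `h` -/
noncomputable def hh (q L r : ℝ) : ℝ :=
  Real.exp (-L) / (tt L r) ^ 2 + (q + 1 + L) ^ (-(q + 1)) * (ss q L r) ^ q / tt L r

/-- `σ` on the line -/
noncomputable def sg (q L x : ℝ) : ℝ≥0∞ := ENNReal.ofReal (hh q L |x|)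

/-- `w = σ^{-1/q}` on the line -/
noncomputable def wg (q L x : ℝ) : ℝ≥0∞ := ENNReal.ofReal ((hh q L |x|) ^ (-(1 / q)))

/-- average -/
noncomputable def avg {E : Type*} [MeasureSpace E] (f : E → ℝ≥0∞) (Q : Set E) : ℝ≥0∞ :=
  (volume Q)⁻¹ * ∫⁻ y in Q, f y

/-- the maximal function over closed intervals of the line -/
noncomputable def maxOne (f : ℝ → ℝ≥0∞) (x : ℝ) : ℝ≥0∞ :=
  ⨆ (a : ℝ) (b : ℝ) (_ : a < b) (_ : x ∈ Icc a b), avg f (Icc a b)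

/-- the mass of `σ` in `[a,b] ∩ [-1,1]` -/
noncomputable def mass (q L a b : ℝ) : ℝ≥0∞ := ∫⁻ y in Icc a b ∩ Icc (-1) 1, sg q L y

/-- majorant of the maximal function of `σ 1_{[a,b]}` on `[a,b]`; `ρ` is a lower bound of `|y|`,
`y ∈ [a,b]` -/
noncomputable def MB (q L a b ρ x : ℝ) : ℝ≥0∞ :=
  min (4 * sg q L x + (Ici (Real.exp (-L))).indicator
    (fun t => 2 * mass q L a b * ENNReal.ofReal (1 / t)) |x|) (sg q L ρ)

/-- distance of `[a,b]` from `0` -/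
noncomputable def rho (a b : ℝ) : ℝ := max (max a (-b)) 0

/-- `max(|a|,|b|)` -/
noncomputable def rad (a b : ℝ) : ℝ := max |a| |b|

/-- the closed cubes of `ℝ^n` with sides parallel to the axes = closed balls of the sup norm -/
def IsCube {n : ℕ} (Q : Set (Fin n → ℝ)) : Prop := ∃ (c : Fin n → ℝ) (r : ℝ), 0 < r ∧
  Q = Metric.closedBall c r

/-- the maximal function over cubes -/
noncomputable def maxN {n : ℕ} (f : (Fin n → ℝ) → ℝ≥0∞) (x : Fin n → ℝ) : ℝ≥0∞ :=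
  ⨆ (Q : Set (Fin n → ℝ)) (_ : IsCube Q) (_ : x ∈ Q), avg f Q

/-! ### statements of the blocks -/

/-- MX-A: elementary facts on the profile -/
def ProfStm : Prop := ∀ q L : ℝ, 0 < q → 1 ≤ L →
  (∀ r, Real.exp (-L) ≤ tt L r ∧ tt L r ≤ 1) ∧
  (∀ r, q + 1 ≤ ss q L r ∧ ss q L r ≤ q + 1 + L) ∧
  (∀ r s, r ≤ s → hh q L s ≤ hh q L r) ∧
  (∀ r, 0 ≤ r → hh q L (r / 2) ≤ 4 * hh q L r) ∧
  (∀ r, 1 ≤ r → hh q L r = Real.exp (-L) + (q + 1 + L)⁻¹) ∧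
  (∀ r, (q + 1 + L)⁻¹ ≤ hh q L r) ∧
  (∀ r, r ≤ Real.exp (-L) → hh q L r = hh q L 0) ∧
  (hh q L 0 ≤ 2 * Real.exp L ∧ Real.exp L ≤ hh q L 0) ∧
  (∀ r, Real.exp (-L) ≤ r → r ≤ 1 →
    (q + 1 + L) ^ (-(q + 1)) * (ss q L r) ^ q / r ≤ hh q L r ∧
    hh q L r ≤ Real.exp (-L) / r ^ 2 + (q + 1 + L)⁻¹ / r) ∧
  Measurable (hh q L)

/-- MX-B: integrals on the line -/
def IntStm : Prop :=
  (∀ q L r : ℝ, 0 < q → 1 ≤ L → 0 ≤ r → ∫⁻ x in Icc (-r) r, sg q L x ≤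
    ENNReal.ofReal (8 + 2 * r * hh q L 1)) ∧
  (∀ q L a b : ℝ, 0 < q → 1 ≤ L → mass q L a b ≤ 8) ∧
  (∀ L r : ℝ, 1 ≤ L → Real.exp (-L) ≤ r → ∫⁻ x in Icc (-r) r,
    (Ici (Real.exp (-L))).indicator (fun t => ENNReal.ofReal (1 / t)) |x| ≤
      ENNReal.ofReal (2 * (L + Real.log r)))

/-- MX-C: the `A_∞` bound on the line -/
def AinfStm : Prop := ∀ q L a b : ℝ, 0 < q → 1 ≤ L → a < b →
  ∫⁻ x in Icc a b, MB q L a b (rho a b) x ≤
    ENNReal.ofReal (40 * ss q L (rad a b)) * ∫⁻ x in Icc a b, sg q L x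

/-- MX-D: the `A_p` bound on the line (`1/q = p - 1`, `1 + 1/q = p`) -/
def ApStm : Prop := ∀ q L a b : ℝ, 0 < q → 1 ≤ L → a < b →
  avg (wg q L) (Icc a b) * avg (sg q L) (Icc a b) ^ (1 / q) ≤
    ENNReal.ofReal (24 ^ (1 / q) * (q + 1 + L) ^ (1 + 1 / q) / ss q L (rad a b))

/-- MX-F: pointwise bound of the maximal function on the line -/
def MaxStm : Prop := ∀ q L a b x : ℝ, 0 < q → 1 ≤ L → a < b →
  maxOne ((Icc a b).indicator (sg q L)) x ≤ MB q L a b (rho a b) x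

/-- MX-E: functions of one coordinate in `ℝ^{m+1}` -/
def TransStm : Prop := ∀ (m : ℕ) (c : Fin (m + 1) → ℝ) (r : ℝ), 0 < r →
  (∀ f : ℝ → ℝ≥0∞, Measurable f →
    avg (fun x : Fin (m + 1) → ℝ => f (x 0)) (Metric.closedBall c r) =
      avg f (Icc (c 0 - r) (c 0 + r)) ∧
    ∫⁻ x in Metric.closedBall c r, f (x 0) =
      ENNReal.ofReal ((2 * r) ^ m) * ∫⁻ y in Icc (c 0 - r) (c 0 + r), f y) ∧
  (∀ f : ℝ → ℝ≥0∞, Measurable f → ∀ x : Fin (m + 1) → ℝ,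
    maxN ((Metric.closedBall c r).indicator (fun y : Fin (m + 1) → ℝ => f (y 0))) x ≤
      maxOne ((Icc (c 0 - r) (c 0 + r)).indicator f) (x 0))

/-- the test function: the indicator of `{|x 0| < e^{-L}, |x i| ≤ 2 for i ≥ 1}` -/
noncomputable def tf (m : ℕ) (L : ℝ) (x : Fin (m + 1) → ℝ) : ℝ≥0∞ :=
  {x : Fin (m + 1) → ℝ | |x 0| < Real.exp (-L) ∧ ∀ i : Fin m, |x i.succ| ≤ 2}.indicator 1 x

/-- MX-G: the test function has norm between positive constants times `(e^{-L})^{p}`, and its maximal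
function is large (`p = 1 + 1/q`) -/
def LowStm : Prop := ∀ (m : ℕ) (q L : ℝ), 0 < q → 1 ≤ L →
  ∫⁻ x : Fin (m + 1) → ℝ, tf m L x ^ (1 + 1 / q) * wg q L (x 0) ≤
      ENNReal.ofReal (2 * 4 ^ m * Real.exp (-L) * Real.exp (-L) ^ (1 / q)) ∧
  0 < ∫⁻ x : Fin (m + 1) → ℝ, tf m L x ^ (1 + 1 / q) * wg q L (x 0) ∧
  ((q + 1) + (q + 1) * Real.log (q + 1 + L) ≤ Real.sqrt (q + 1 + L) →
    ENNReal.ofReal (2 ^ m * 2 ^ (-(1 / q)) * Real.exp (-L) ^ (1 + 1 / q) *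
        (q + 1 + L) ^ (1 + 1 / q) * Real.log (q + 1 + L)) ≤
      ∫⁻ x : Fin (m + 1) → ℝ, maxN (tf m L) x ^ (1 + 1 / q) * wg q L (x 0))

end Pool.Agent.Y267.MX
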