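import Pool.Agent.Y267.MX.Defs

open MeasureTheory Set Filter Topology
open scoped ENNReal NNReal

namespace Pool.Agent.Y267.MX

variable {q L : ℝ}

section basic

lemma tpos (hq : 0 < q) (hL : 1 ≤ L) : 1 ≤ q + 1 + L := by linarith

lemma hh_pos (hA : ProfStm) (hq : 0 < q) (hL : 1 ≤ L) (r : ℝ) : 0 < hh q L r :=
  lt_of_lt_of_le (inv_pos.mpr (by linarith)) ((hA q L hq hL).2.2.2.2.2.1 r)

lemma hh_meas (hA : ProfStm) (hq : 0 < q) (hL : 1 ≤ L) : Measurable (hh q L) :=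
  (hA q L hq hL).2.2.2.2.2.2.2.2.2

lemma sg_meas (hA : ProfStm) (hq : 0 < q) (hL : 1 ≤ L) : Measurable (sg q L) :=
  ((hh_meas hA hq hL).comp measurable_norm).ennreal_ofReal

lemma wg_meas (hA : ProfStm) (hq : 0 < q) (hL : 1 ≤ L) : Measurable (wg q L) :=
  (((hh_meas hA hq hL).comp measurable_norm).pow_const _).ennreal_ofReal

lemma sg_pos (hA : ProfStm) (hq : 0 < q) (hL : 1 ≤ L) (x : ℝ) : 0 < sg q L x :=
  ENNReal.ofReal_pos.mpr (hh_pos hA hq hL _)

lemma wg_pos (hA : ProfStm) (hq : 0 < q) (hL : 1 ≤ L) (x : ℝ) : 0 < wg q L x :=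
  ENNReal.ofReal_pos.mpr (Real.rpow_pos_of_pos (hh_pos hA hq hL _) _)

lemma int_sg_pos (hA : ProfStm) (hq : 0 < q) (hL : 1 ≤ L) {a b : ℝ} (hab : a < b) :
    0 < ∫⁻ x in Icc a b, sg q L x := by
  rw [setLIntegral_pos_iff (sg_meas hA hq hL)]
  have : Function.support (sg q L) ∩ Icc a b = Icc a b := by
    rw [inter_eq_right]
    intro x _
    exact (sg_pos hA hq hL x).ne'
  rw [this, Real.volume_Icc]
  simpa using hab

lemma int_sg_lt (hA : ProfStm) (hq : 0 < q) (hL : 1 ≤ L) {a b : ℝ} :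
    ∫⁻ x in Icc a b, sg q L x < ⊤ := by
  calc ∫⁻ x in Icc a b, sg q L x ≤ ∫⁻ _ in Icc a b, ENNReal.ofReal (hh q L 0) := by
        apply lintegral_mono
        intro x
        exact ENNReal.ofReal_le_ofReal ((hA q L hq hL).2.2.1 _ _ (abs_nonneg x))
    _ < ⊤ := by
        rw [setLIntegral_const, Real.volume_Icc]
        exact ENNReal.mul_lt_top ENNReal.ofReal_lt_top ENNReal.ofReal_lt_top

end basic

section cubes

variable {m : ℕ}

lemma MB_meas (hA : ProfStm) (hq : 0 < q) (hL : 1 ≤ L) (a b ρ : ℝ) : Measurable (MB q L a b ρ) := by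
  unfold MB
  refine Measurable.min ?_ measurable_const
  refine ((sg_meas hA hq hL).const_mul 4).add ?_
  refine Measurable.comp (g := (Ici (Real.exp (-L))).indicator
    (fun t => 2 * mass q L a b * ENNReal.ofReal (1 / t))) ?_ measurable_norm
  exact (((measurable_const.div measurable_id).ennreal_ofReal).const_mul _).indicator measurableSet_Ici

/-- the `A_∞` bound for a cube -/
lemma ainf_cube (hA : ProfStm) (hC : AinfStm) (hF : MaxStm) (hE : TransStm) (hq : 0 < q) (hL : 1 ≤ L)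
    (c : Fin (m + 1) → ℝ) {r : ℝ} (hr : 0 < r) :
    (∫⁻ x in Metric.closedBall c r, sg q L (x 0))⁻¹ *
      ∫⁻ x in Metric.closedBall c r,
        maxN ((Metric.closedBall c r).indicator (fun y : Fin (m + 1) → ℝ => sg q L (y 0))) x ≤
      ENNReal.ofReal (40 * ss q L (rad (c 0 - r) (c 0 + r))) := by
  have hab : c 0 - r < c 0 + r := by linarith
  obtain ⟨h1, h2⟩ := hE m c r hr
  have e1 := (h1 (sg q L) (sg_meas hA hq hL)).2
  have hB : ∫⁻ x in Metric.closedBall c r,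
        maxN ((Metric.closedBall c r).indicator (fun y : Fin (m + 1) → ℝ => sg q L (y 0))) x ≤
      ENNReal.ofReal ((2 * r) ^ m) *
        ∫⁻ y in Icc (c 0 - r) (c 0 + r), MB q L (c 0 - r) (c 0 + r) (rho (c 0 - r) (c 0 + r)) y := by
    rw [← (h1 _ (MB_meas hA hq hL _ _ _)).2]
    apply lintegral_mono
    intro x
    exact (h2 (sg q L) (sg_meas hA hq hL) x).trans (hF q L _ _ _ hq hL hab)
  have hV : ENNReal.ofReal ((2 * r) ^ m) ≠ 0 := by
    rw [ne_eq, ENNReal.ofReal_eq_zero, not_le]; positivity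
  have hV' : ENNReal.ofReal ((2 * r) ^ m) ≠ ⊤ := ENNReal.ofReal_ne_top
  have hS := (int_sg_pos hA hq hL hab).ne'
  have hS' := (int_sg_lt hA hq hL (a := c 0 - r) (b := c 0 + r)).ne
  rw [e1]
  set V := ENNReal.ofReal ((2 * r) ^ m)
  set S := ∫⁻ x in Icc (c 0 - r) (c 0 + r), sg q L x
  set K := ENNReal.ofReal (40 * ss q L (rad (c 0 - r) (c 0 + r)))
  calc (V * S)⁻¹ * _ ≤ (V * S)⁻¹ * (V * (K * S)) := by
        gcongr
        exact hB.trans (by gcongr; exact hC q L _ _ hq hL hab)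
    _ = (V * S)⁻¹ * (V * S) * K := by ring
    _ = K := by rw [ENNReal.inv_mul_cancel (mul_ne_zero hV hS) (ENNReal.mul_ne_top hV' hS'), one_mul]

/-- the `A_p` bound for a cube -/
lemma ap_cube (hA : ProfStm) (hD : ApStm) (hE : TransStm) (hq : 0 < q) (hL : 1 ≤ L)
    (c : Fin (m + 1) → ℝ) {r : ℝ} (hr : 0 < r) :
    avg (fun x : Fin (m + 1) → ℝ => wg q L (x 0)) (Metric.closedBall c r) *
      avg (fun x : Fin (m + 1) → ℝ => sg q L (x 0)) (Metric.closedBall c r) ^ (1 / q) ≤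
      ENNReal.ofReal (24 ^ (1 / q) * (q + 1 + L) ^ (1 + 1 / q) /
        ss q L (rad (c 0 - r) (c 0 + r))) := by
  have hab : c 0 - r < c 0 + r := by linarith
  obtain ⟨h1, -⟩ := hE m c r hr
  rw [(h1 _ (sg_meas hA hq hL)).1, (h1 _ (wg_meas hA hq hL)).1]
  exact hD q L _ _ hq hL hab

lemma one_le_ss (hA : ProfStm) (hq : 0 < q) (hL : 1 ≤ L) (r : ℝ) : 1 ≤ ss q L r := by
  have := ((hA q L hq hL).2.1 r).1
  linarith

/-- `(⟨σ⟩⟨w⟩^q)^{1/(q+1)} A_∞^{q/(q+1)} ≤ (40·24^{1/q} T^{1+1/q})^{q/(q+1)}` -/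
lemma mixed_cube (hA : ProfStm) (hC : AinfStm) (hD : ApStm) (hF : MaxStm) (hE : TransStm)
    (hq : 0 < q) (hL : 1 ≤ L) (c : Fin (m + 1) → ℝ) {r : ℝ} (hr : 0 < r) :
    (avg (fun x : Fin (m + 1) → ℝ => sg q L (x 0)) (Metric.closedBall c r) *
      avg (fun x : Fin (m + 1) → ℝ => wg q L (x 0)) (Metric.closedBall c r) ^ q) ^ (1 / (q + 1)) *
    ((∫⁻ x in Metric.closedBall c r, sg q L (x 0))⁻¹ *
      ∫⁻ x in Metric.closedBall c r,
        maxN ((Metric.closedBall c r).indicator (fun y : Fin (m + 1) → ℝ => sg q L (y 0))) x)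
          ^ (1 / (1 + 1 / q)) ≤
      ENNReal.ofReal (40 * 24 ^ (1 / q) * (q + 1 + L) ^ (1 + 1 / q)) ^ (1 / (1 + 1 / q)) := by
  have h1 := ap_cube hA hD hE hq hL c hr
  have h2 := ainf_cube hA hC hF hE hq hL c hr
  set A := avg (fun x : Fin (m + 1) → ℝ => sg q L (x 0)) (Metric.closedBall c r)
  set B := avg (fun x : Fin (m + 1) → ℝ => wg q L (x 0)) (Metric.closedBall c r)
  set s := ss q L (rad (c 0 - r) (c 0 + r))
  have hs : 1 ≤ s := one_le_ss hA hq hL _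
  have hp : 0 < 1 + 1 / q := by positivity
  have e0 : (1 / (1 + 1 / q) : ℝ) = q / (q + 1) := by field_simp
  have e1 : (A * B ^ q) ^ (1 / (q + 1)) = (B * A ^ (1 / q)) ^ (1 / (1 + 1 / q)) := by
    have hq1 : 0 < q + 1 := by linarith
    rw [e0, ENNReal.mul_rpow_of_nonneg _ _ (by positivity), ENNReal.mul_rpow_of_nonneg _ _ (by positivity),
      ← ENNReal.rpow_mul, ← ENNReal.rpow_mul, mul_comm]
    congr 2
    · field_simp
    · field_simp
  rw [e1, ← ENNReal.mul_rpow_of_nonneg _ _ (by positivity)]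
  apply ENNReal.rpow_le_rpow _ (by positivity)
  refine (mul_le_mul' h1 h2).trans (le_of_eq ?_)
  have hT : 1 ≤ q + 1 + L := tpos hq hL
  rw [← ENNReal.ofReal_mul (by positivity)]
  congr 1
  field_simp

end cubes

end Pool.Agent.Y267.MX
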